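import Pool.Agent.TH44.HypPoly.Proof

/-!
# The dihedral angle comparison for compact convex polyhedra in hyperbolic 3-space fails

The definitions (hyperboloid model) are in `Pool.Agent.TH44.HypPoly.Defs`.
-/

open Pool.Agent.TH44.HypPoly

namespace Pool.Agent.Results.MP_459b8e_gt.DihedralComparisonFails

/-- **Main result.**  The comparison fails, and no inequality `vol Q ≤ M * vol P` holds in its
place: for every `M` there are compact convex polyhedra `P` and `Q` in `H3`, each the intersection
of six closed half-spaces all of which contribute facets, such that the measure of each of the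
fifteen dihedral angles of `Q` is at least that of the corresponding dihedral angle of `P`, and
nevertheless `M * vol P < vol Q`. -/
theorem result : ∀ M : ℕ, ∃ v w : Fin 6 → Mink, IsPolyhedron v ∧ IsPolyhedron w ∧
    (∀ i j, i < j → dihedral (v i) (v j) ≤ dihedral (w i) (w j)) ∧
    M * hvol (poly v) < hvol (poly w) := by
  intro M
  obtain ⟨K, hK⟩ : ∃ K : ℕ, K = 8192 * M := ⟨_, rfl⟩
  obtain ⟨t, ht⟩ : ∃ t : ℝ, t = (1 / 2) ^ K := ⟨_, rfl⟩
  have ht0 : 0 < t := by rw [ht]; positivity
  have ht1 : t ≤ 1 := by rw [ht]; exact pow_le_one₀ (by norm_num) (by norm_num)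
  have hσ0 : 0 < t / 8 := by positivity
  have hσ1 : t / 8 ≤ 1 / 8 := by linarith
  have hτ0 : 0 < t ^ 2 / 32 := by positivity
  have hτ1 : t ^ 2 / 32 ≤ 1 / 32 := by nlinarith
  have hστ : (t / 8) ^ 2 ≤ t ^ 2 / 32 / 2 := by nlinarith
  refine ⟨nP (t / 8), nQ (t ^ 2 / 32) (t / 8), isPolyhedron_P hσ0 hσ1,
    isPolyhedron_Q hτ0 hτ1 hσ0 hστ, dihedral_P_le_Q hτ0 hτ1 hσ0 hστ, ?_⟩
  calc (M : ENNReal) * hvol (poly (nP (t / 8)))
      ≤ (M : ENNReal) * ENNReal.ofReal (128 * (t / 8)) := by
        gcongr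
        exact hvol_P_le hσ0 hσ1
    _ = ENNReal.ofReal (M * (128 * (t / 8))) := by
        rw [ENNReal.ofReal_mul (p := (M : ℝ)) (by positivity), ENNReal.ofReal_natCast]
    _ < ENNReal.ofReal ((K + 1) * (t / 512)) := by
        apply (ENNReal.ofReal_lt_ofReal_iff (by positivity)).2
        have : (K : ℝ) = 8192 * M := by rw [hK]; push_cast; ring
        rw [this]
        nlinarith
    _ ≤ hvol (poly (nQ (t ^ 2 / 32) (t / 8))) := le_hvol_Q K ht

end Pool.Agent.Results.MP_459b8e_gt.DihedralComparisonFails
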